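import Mathlib

/-!
# The value of Fox and Geese: definitions

The starting position of Fox and Geese on the `8 × 8` board (geese a1, c1, e1, g1, fox d8, Left = geese,
Right = fox, normal play) equals `2 + 1/on`, in the theory of loopy partizan games.
-/

set_option autoImplicit false

namespace Pool.Agent.Results.MP_ab3a84_co.FoxAndGeeseValue

/-- A (possibly loopy) partizan game: a directed graph with Left edges and Right edges and a
starting vertex. -/
structure Game where
  /-- the positions -/
  Pos : Type
  /-- `left p q`: Left may move from `p` to `q` -/
  left : Pos → Pos → Prop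
  /-- `right p q`: Right may move from `p` to `q` -/
  right : Pos → Pos → Prop
  /-- the starting position -/
  start : Pos

/-- the two players -/
inductive Player where
  | left : Player
  | right : Player

namespace Game

/-- The disjunctive sum: a player moves in exactly one of the two components. -/
def add (G H : Game) : Game where
  Pos := G.Pos × H.Pos
  left p q := (G.left p.1 q.1 ∧ q.2 = p.2) ∨ (q.1 = p.1 ∧ H.left p.2 q.2)
  right p q := (G.right p.1 q.1 ∧ q.2 = p.2) ∨ (q.1 = p.1 ∧ H.right p.2 q.2)
  start := (G.start, H.start)

/-- `G.LeftWins t p`: in the position `p` with player `t` to move, Left can force a win under normal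
play (Right cannot move, after finitely many moves).  Infinite play is a draw. -/
inductive LeftWins (G : Game) : Player → G.Pos → Prop
  | move {p q : G.Pos} : G.left p q → LeftWins G Player.right q → LeftWins G Player.left p
  | wait {p : G.Pos} : (∀ q, G.right p q → LeftWins G Player.left q) → LeftWins G Player.right p

/-- `G.RightWins t p`: in the position `p` with player `t` to move, Right can force a win. -/
inductive RightWins (G : Game) : Player → G.Pos → Prop
  | move {p q : G.Pos} : G.right p q → RightWins G Player.left q → RightWins G Player.right p
  | wait {p : G.Pos} : (∀ q, G.left p q → RightWins G Player.right q) → RightWins G Player.left p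

/-- Equality of loopy games: `G` and `H` have the same value iff for every loopy game `X` the sums
`G + X` and `H + X` have the same outcome (Left win, Right win or draw), whoever starts. -/
def Equal (G H : Game) : Prop :=
  ∀ (X : Game) (t : Player),
    ((G.add X).LeftWins t (G.add X).start ↔ (H.add X).LeftWins t (H.add X).start) ∧
    ((G.add X).RightWins t (G.add X).start ↔ (H.add X).RightWins t (H.add X).start)

/-- A stopper: no infinite sequence of alternating moves (from any position, and whoever starts). -/
def IsStopper (G : Game) : Prop :=
  ∀ p : ℕ → G.Pos,
    ¬ (∀ n, G.left (p (2 * n)) (p (2 * n + 1)) ∧ G.right (p (2 * n + 1)) (p (2 * n + 2))) ∧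
    ¬ (∀ n, G.right (p (2 * n)) (p (2 * n + 1)) ∧ G.left (p (2 * n + 1)) (p (2 * n + 2)))

end Game

/-- Squares of the board: (file, rank), files a, ..., h and ranks 1, ..., 8 being numbered 0, ..., 7. -/
abbrev Square := Fin 8 × Fin 8

/-- A position: the set of squares occupied by geese, and the square of the fox. -/
structure Position where
  geese : Finset Square
  fox : Square

/-- `t` is one step diagonally forward (toward rank 8) of `s`. -/
def Forward (s t : Square) : Prop :=
  t.2.val = s.2.val + 1 ∧ (t.1.val = s.1.val + 1 ∨ s.1.val = t.1.val + 1)

/-- Fox and Geese. A goose moves one square diagonally forward to an empty square, the fox moves one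
square diagonally in any direction to an empty square.
The geese start on a1, c1, e1, g1 and the fox on d8. -/
def FoxAndGeese : Game where
  Pos := Position
  left p q := ∃ s ∈ p.geese, ∃ t, Forward s t ∧ t ∉ p.geese ∧ t ≠ p.fox ∧
    q = ⟨insert t (p.geese.erase s), p.fox⟩
  right p q := ∃ t, (Forward p.fox t ∨ Forward t p.fox) ∧ t ∉ p.geese ∧ q = ⟨p.geese, t⟩
  start := ⟨{(0, 0), (2, 0), (4, 0), (6, 0)}, (3, 7)⟩

/-- The integer `2 = {1 | }`, where `1 = {0 | }` and `0 = { | }`. -/
def two : Game where
  Pos := Fin 3
  left p q := p.val = q.val + 1
  right _ _ := False
  start := 2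

/-- `1/on` (also called over): the game `u = {0 | u}`
(position `true` is `u`, position `false` is `0`). -/
def oneOverOn : Game where
  Pos := Bool
  left p q := p = true ∧ q = false
  right p q := p = true ∧ q = true
  start := true

/-- The stopper `V = {2 | V}` : positions `0, 1, 2, 3` are `V` and the integers `2, 1, 0`. -/
def V : Game where
  Pos := Fin 4
  left p q := q.val = p.val + 1
  right p q := p = 0 ∧ q = 0
  start := 0

end Pool.Agent.Results.MP_ab3a84_co.FoxAndGeeseValue
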