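import Pool.Agent.H51.FoxGeeseRun
import Pool.Agent.H51.FGV.Defs

/-!
# The value of Fox and Geese: the proof
-/

set_option autoImplicit false

namespace Pool.Agent.Results.MP_ab3a84_co.FoxAndGeeseValue

/-! ## General theory -/

namespace Game

theorem Equal.trans {G H K : Game} (h₁ : G.Equal H) (h₂ : H.Equal K) : G.Equal K :=
  fun X t => ⟨(h₁ X t).1.trans (h₂ X t).1, (h₁ X t).2.trans (h₂ X t).2⟩

/-- `S` is closed under a survival strategy for Left, moving second, in `G - H`. -/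
structure Surv (G H : Game) (S : G.Pos → H.Pos → Prop) : Prop where
  start : S G.start H.start
  right : ∀ g h, S g h → ∀ g', G.right g g' →
    (∃ g'', G.left g' g'' ∧ S g'' h) ∨ (∃ h', H.right h h' ∧ S g' h')
  left : ∀ g h, S g h → ∀ h', H.left h h' →
    (∃ g', G.left g g' ∧ S g' h') ∨ (∃ h'', H.right h' h'' ∧ S g h'')

theorem left_transfer {G H X : Game} (S : G.Pos → H.Pos → Prop)
    (hr : ∀ g h, S g h → ∀ g', G.right g g' →
      (∃ g'', G.left g' g'' ∧ S g'' h) ∨ (∃ h', H.right h h' ∧ S g' h'))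
    (hl : ∀ g h, S g h → ∀ h', H.left h h' →
      (∃ g', G.left g g' ∧ S g' h') ∨ (∃ h'', H.right h' h'' ∧ S g h''))
    (wf : WellFounded (fun g'' g : G.Pos => ∃ g', G.right g g' ∧ G.left g' g''))
    {t : Player} {p : (H.add X).Pos} (hw : (H.add X).LeftWins t p) :
    ∀ g, S g p.1 → (G.add X).LeftWins t (g, p.2) := by
  suffices hh : (∀ g, S g p.1 → (G.add X).LeftWins t (g, p.2)) ∧
      (t = Player.right → ∀ q, (H.add X).right p q → ∀ g, S g q.1 →
        (G.add X).LeftWins Player.left (g, q.2)) from hh.1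
  induction hw with
  | @move p q hm hq ih =>
    refine ⟨fun g hg => ?_, fun h => by cases h⟩
    obtain ⟨ih1, ih2⟩ := ih
    rcases hm with ⟨hm1, hm2⟩ | ⟨hm1, hm2⟩
    · -- Left moves in `H`
      rcases hl g p.1 hg q.1 hm1 with ⟨g', hg', hS⟩ | ⟨h'', hh'', hS⟩
      · have := ih1 g' hS
        rw [hm2] at this
        exact LeftWins.move (G := G.add X) (p := (g, p.2)) (q := (g', p.2)) (Or.inl ⟨hg', rfl⟩) this
      · have := ih2 rfl (h'', q.2) (Or.inl ⟨hh'', rfl⟩) g hS
        simpa [hm2] using this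
    · have := ih1 g (by rw [hm1]; exact hg)
      exact LeftWins.move (G := G.add X) (p := (g, p.2)) (q := (g, q.2)) (Or.inr ⟨rfl, hm2⟩) this
  | @wait p hall ih =>
    have ih' : ∀ q, (H.add X).right p q → ∀ g, S g q.1 →
        (G.add X).LeftWins Player.left (g, q.2) := fun q hq => (ih q hq).1
    refine ⟨fun g hg => ?_, fun _ => ih'⟩
    induction g using wf.induction with
    | _ g ihg =>
      refine LeftWins.wait fun q hq => ?_
      rcases hq with ⟨hq1, hq2⟩ | ⟨hq1, hq2⟩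
      · rcases hr g p.1 hg q.1 hq1 with ⟨g'', hg'', hS⟩ | ⟨h', hh', hS⟩
        · have := ihg g'' ⟨q.1, hq1, hg''⟩ hS
          exact LeftWins.move (Or.inl ⟨hg'', by rw [hq2]⟩) this
        · have := ih' (h', p.2) (Or.inl ⟨hh', rfl⟩) q.1 hS
          have e : q = (q.1, p.2) := Prod.ext rfl hq2
          rw [e]; exact this
      · have := ih' (p.1, q.2) (Or.inr ⟨rfl, hq2⟩) g hg
        have e : q = (g, q.2) := Prod.ext hq1 rfl
        rw [e]; exact this

theorem right_transfer {G H X : Game} (S : G.Pos → H.Pos → Prop)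
    (hr : ∀ g h, S g h → ∀ g', G.right g g' →
      (∃ g'', G.left g' g'' ∧ S g'' h) ∨ (∃ h', H.right h h' ∧ S g' h'))
    (hl : ∀ g h, S g h → ∀ h', H.left h h' →
      (∃ g', G.left g g' ∧ S g' h') ∨ (∃ h'', H.right h' h'' ∧ S g h''))
    (wf : WellFounded (fun h'' h : H.Pos => ∃ h', H.left h h' ∧ H.right h' h''))
    {t : Player} {p : (G.add X).Pos} (hw : (G.add X).RightWins t p) :
    ∀ h, S p.1 h → (H.add X).RightWins t (h, p.2) := by
  suffices hh : (∀ h, S p.1 h → (H.add X).RightWins t (h, p.2)) ∧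
      (t = Player.left → ∀ q, (G.add X).left p q → ∀ h, S q.1 h →
        (H.add X).RightWins Player.right (h, q.2)) from hh.1
  induction hw with
  | @move p q hm hq ih =>
    refine ⟨fun h hg => ?_, fun h => by cases h⟩
    obtain ⟨ih1, ih2⟩ := ih
    rcases hm with ⟨hm1, hm2⟩ | ⟨hm1, hm2⟩
    · rcases hr p.1 h hg q.1 hm1 with ⟨g'', hg'', hS⟩ | ⟨h', hh', hS⟩
      · have := ih2 rfl (g'', q.2) (Or.inl ⟨hg'', rfl⟩) h hS
        simpa [hm2] using this
      · have := ih1 h' hS
        rw [hm2] at this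
        exact RightWins.move (G := H.add X) (p := (h, p.2)) (q := (h', p.2)) (Or.inl ⟨hh', rfl⟩) this
    · have := ih1 h (by rw [hm1]; exact hg)
      exact RightWins.move (G := H.add X) (p := (h, p.2)) (q := (h, q.2)) (Or.inr ⟨rfl, hm2⟩) this
  | @wait p hall ih =>
    have ih' : ∀ q, (G.add X).left p q → ∀ h, S q.1 h →
        (H.add X).RightWins Player.right (h, q.2) := fun q hq => (ih q hq).1
    refine ⟨fun h hg => ?_, fun _ => ih'⟩
    induction h using wf.induction with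
    | _ h ihh =>
      refine RightWins.wait fun q hq => ?_
      rcases hq with ⟨hq1, hq2⟩ | ⟨hq1, hq2⟩
      · rcases hl p.1 h hg q.1 hq1 with ⟨g', hg', hS⟩ | ⟨h'', hh'', hS⟩
        · have := ih' (g', p.2) (Or.inl ⟨hg', rfl⟩) q.1 hS
          have e : q = (q.1, p.2) := Prod.ext rfl hq2
          rw [e]; exact this
        · have := ihh h'' ⟨q.1, hq1, hh''⟩ hS
          exact RightWins.move (Or.inl ⟨hh'', by rw [hq2]⟩) this
      · have := ih' (p.1, q.2) (Or.inr ⟨rfl, hq2⟩) h hg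
        have e : q = (h, q.2) := Prod.ext hq1 rfl
        rw [e]; exact this

/-- Two games which dominate each other in the survival sense are equal. -/
theorem equal_of_surv {G H : Game} {S : G.Pos → H.Pos → Prop} {T : H.Pos → G.Pos → Prop}
    (hS : Surv G H S) (hT : Surv H G T)
    (wG1 : WellFounded (fun g'' g : G.Pos => ∃ g', G.right g g' ∧ G.left g' g''))
    (wG2 : WellFounded (fun g'' g : G.Pos => ∃ g', G.left g g' ∧ G.right g' g''))
    (wH1 : WellFounded (fun h'' h : H.Pos => ∃ h', H.right h h' ∧ H.left h' h''))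
    (wH2 : WellFounded (fun h'' h : H.Pos => ∃ h', H.left h h' ∧ H.right h' h'')) :
    G.Equal H := by
  intro X t
  refine ⟨⟨fun h => ?_, fun h => ?_⟩, ⟨fun h => ?_, fun h => ?_⟩⟩
  · exact left_transfer T hT.right hT.left wH1 h H.start hT.start
  · exact left_transfer S hS.right hS.left wG1 h G.start hS.start
  · exact right_transfer S hS.right hS.left wH2 h H.start hS.start
  · exact right_transfer T hT.right hT.left wG2 h G.start hT.start

/-- `μ` drops at each Left move and does not grow at Right moves -/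
structure Measure (G : Game) (μ : G.Pos → ℕ) : Prop where
  left : ∀ p q, G.left p q → μ q < μ p
  right : ∀ p q, G.right p q → μ q ≤ μ p

theorem Measure.wf1 {G : Game} {μ : G.Pos → ℕ} (h : Measure G μ) :
    WellFounded (fun g'' g : G.Pos => ∃ g', G.right g g' ∧ G.left g' g'') :=
  Subrelation.wf (r := fun a b => μ a < μ b)
    (fun {_ _} ⟨_, h1, h2⟩ => lt_of_lt_of_le (h.left _ _ h2) (h.right _ _ h1))
    (InvImage.wf μ Nat.lt_wfRel.wf)

theorem Measure.wf2 {G : Game} {μ : G.Pos → ℕ} (h : Measure G μ) :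
    WellFounded (fun g'' g : G.Pos => ∃ g', G.left g g' ∧ G.right g' g'') :=
  Subrelation.wf (r := fun a b => μ a < μ b)
    (fun {_ _} ⟨_, h1, h2⟩ => lt_of_le_of_lt (h.right _ _ h2) (h.left _ _ h1))
    (InvImage.wf μ Nat.lt_wfRel.wf)

theorem Measure.isStopper {G : Game} {μ : G.Pos → ℕ} (h : Measure G μ) : G.IsStopper := by
  have key : ∀ p : ℕ → G.Pos, (∀ n, μ (p (2 * n + 2)) < μ (p (2 * n))) → False := by
    intro p hp
    have : ∀ n, μ (p (2 * n)) + n ≤ μ (p 0) := by
      intro n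
      induction n with
      | zero => simp
      | succ n ih =>
        have := hp n
        have e : 2 * (n + 1) = 2 * n + 2 := by ring
        rw [e]; omega
    have := this (μ (p 0) + 1)
    omega
  intro p
  refine ⟨fun hp => key p fun n => ?_, fun hp => key p fun n => ?_⟩
  · exact lt_of_le_of_lt (h.right _ _ (hp n).2) (h.left _ _ (hp n).1)
  · exact lt_of_lt_of_le (h.left _ _ (hp n).2) (h.right _ _ (hp n).1)

theorem equal_of_surv' {G H : Game} {S : G.Pos → H.Pos → Prop} {T : H.Pos → G.Pos → Prop}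
    (hS : Surv G H S) (hT : Surv H G T) {μ : G.Pos → ℕ} {ν : H.Pos → ℕ}
    (hμ : Measure G μ) (hν : Measure H ν) : G.Equal H :=
  equal_of_surv hS hT hμ.wf1 hμ.wf2 hν.wf1 hν.wf2

end Game

/-! ## Measures -/

theorem measure_V : Game.Measure V (fun p : Fin 4 => 3 - p.val) where
  left := by
    intro p q h
    have h' : q.val = p.val + 1 := h
    have := q.isLt
    show 3 - q.val < 3 - p.val
    have : q.val < 4 := q.isLt
    omega
  right := by
    rintro p q ⟨rfl, rfl⟩
    exact le_refl _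

theorem measure_sum : Game.Measure (two.add oneOverOn)
    (fun p : Fin 3 × Bool => 2 * p.1.val + p.2.toNat) where
  left := by
    have key : ∀ p q : Fin 3 × Bool,
        (p.1.val = q.1.val + 1 ∧ q.2 = p.2) ∨ (q.1 = p.1 ∧ (p.2 = true ∧ q.2 = false)) →
        2 * q.1.val + q.2.toNat < 2 * p.1.val + p.2.toNat := by decide
    exact key
  right := by
    have key : ∀ p q : Fin 3 × Bool,
        (False ∧ q.2 = p.2) ∨ (q.1 = p.1 ∧ (p.2 = true ∧ q.2 = true)) →
        2 * q.1.val + q.2.toNat ≤ 2 * p.1.val + p.2.toNat := by decide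
    exact key

theorem measure_FG : Game.Measure FoxAndGeese
    (fun p : Position => ∑ s ∈ p.geese, (7 - s.2.val)) where
  left := by
    rintro p q ⟨s, hs, t, hst, ht, htf, rfl⟩
    show ∑ x ∈ insert t (p.geese.erase s), (7 - x.2.val) < ∑ x ∈ p.geese, (7 - x.2.val)
    have ht' : t ∉ p.geese.erase s := fun h => ht (Finset.mem_of_mem_erase h)
    rw [Finset.sum_insert ht', ← Finset.add_sum_erase _ _ hs]
    have h1 : t.2.val = s.2.val + 1 := hst.1
    have h2 : t.2.val < 8 := t.2.isLt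
    omega
  right := by
    rintro p q ⟨t, _, _, rfl⟩
    exact le_refl _

/-! ## `V = 2 + 1/on` -/

theorem surv_V_sum : Game.Surv V (two.add oneOverOn)
    (fun (h : Fin 4) (q : Fin 3 × Bool) => h.val = 0 ∨ 2 * q.1.val + q.2.toNat ≤ 6 - 2 * h.val) where
  start := Or.inl rfl
  right := by
    have key : ∀ (h : Fin 4) (q : Fin 3 × Bool),
        (h.val = 0 ∨ 2 * q.1.val + q.2.toNat ≤ 6 - 2 * h.val) →
        ∀ h' : Fin 4, (h = 0 ∧ h' = 0) →
        (∃ h'' : Fin 4, (h''.val = h'.val + 1) ∧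
          (h''.val = 0 ∨ 2 * q.1.val + q.2.toNat ≤ 6 - 2 * h''.val)) ∨
        (∃ q' : Fin 3 × Bool,
          ((False ∧ q'.2 = q.2) ∨ (q'.1 = q.1 ∧ (q.2 = true ∧ q'.2 = true))) ∧
          (h'.val = 0 ∨ 2 * q'.1.val + q'.2.toNat ≤ 6 - 2 * h'.val)) := by decide
    exact key
  left := by
    have key : ∀ (h : Fin 4) (q : Fin 3 × Bool),
        (h.val = 0 ∨ 2 * q.1.val + q.2.toNat ≤ 6 - 2 * h.val) →
        ∀ q' : Fin 3 × Bool,
          ((q.1.val = q'.1.val + 1 ∧ q'.2 = q.2) ∨ (q'.1 = q.1 ∧ (q.2 = true ∧ q'.2 = false))) →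
        (∃ h' : Fin 4, (h'.val = h.val + 1) ∧
          (h'.val = 0 ∨ 2 * q'.1.val + q'.2.toNat ≤ 6 - 2 * h'.val)) ∨
        (∃ q'' : Fin 3 × Bool,
          ((False ∧ q''.2 = q'.2) ∨ (q''.1 = q'.1 ∧ (q'.2 = true ∧ q''.2 = true))) ∧
          (h.val = 0 ∨ 2 * q''.1.val + q''.2.toNat ≤ 6 - 2 * h.val)) := by decide
    exact key

theorem surv_sum_V : Game.Surv (two.add oneOverOn) V
    (fun (q : Fin 3 × Bool) (h : Fin 4) => q = (2, true) ∨ (3 ≤ q.1.val + h.val)) where
  start := Or.inl rfl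
  right := by
    have key : ∀ (q : Fin 3 × Bool) (h : Fin 4),
        (q = (2, true) ∨ (3 ≤ q.1.val + h.val)) →
        ∀ q' : Fin 3 × Bool,
          ((False ∧ q'.2 = q.2) ∨ (q'.1 = q.1 ∧ (q.2 = true ∧ q'.2 = true))) →
        (∃ q'' : Fin 3 × Bool,
          ((q'.1.val = q''.1.val + 1 ∧ q''.2 = q'.2) ∨ (q''.1 = q'.1 ∧ (q'.2 = true ∧ q''.2 = false))) ∧
          (q'' = (2, true) ∨ (3 ≤ q''.1.val + h.val))) ∨
        (∃ h' : Fin 4, (h = 0 ∧ h' = 0) ∧ (q' = (2, true) ∨ (3 ≤ q'.1.val + h'.val))) := by decide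
    exact key
  left := by
    have key : ∀ (q : Fin 3 × Bool) (h : Fin 4),
        (q = (2, true) ∨ (3 ≤ q.1.val + h.val)) →
        ∀ h' : Fin 4, (h'.val = h.val + 1) →
        (∃ q' : Fin 3 × Bool,
          ((q.1.val = q'.1.val + 1 ∧ q'.2 = q.2) ∨ (q'.1 = q.1 ∧ (q.2 = true ∧ q'.2 = false))) ∧
          (q' = (2, true) ∨ (3 ≤ q'.1.val + h'.val))) ∨
        (∃ h'' : Fin 4, (h' = 0 ∧ h'' = 0) ∧ (q = (2, true) ∨ (3 ≤ q.1.val + h''.val))) := by decide
    exact key

theorem V_eq : V.Equal (two.add oneOverOn) :=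
  Game.equal_of_surv' surv_V_sum surv_sum_V measure_V measure_sum

/-! ## Coding of squares and moves -/

open Pool.Agent.H51.FoxGeese

/-- the code of a square -/
def sq (s : Square) : ℕ := 8 * s.2.val + s.1.val

theorem sq_lt (s : Square) : sq s < 64 := by
  obtain ⟨⟨a, ha⟩, ⟨b, hb⟩⟩ := s
  simp only [sq]; omega

theorem sq_inj {s t : Square} (h : sq s = sq t) : s = t := by
  obtain ⟨⟨a, ha⟩, ⟨b, hb⟩⟩ := s
  obtain ⟨⟨c, hc⟩, ⟨d, hd⟩⟩ := t
  simp only [sq] at h
  have h1 : a = c := by omega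
  have h2 : b = d := by omega
  subst h1; subst h2; rfl

theorem exists_sq {n : ℕ} (h : n < 64) : ∃ s : Square, sq s = n :=
  ⟨(⟨n % 8, by omega⟩, ⟨n / 8, by omega⟩), by simp only [sq]; omega⟩

theorem tb_eq (g n : ℕ) : tb g n = g.testBit n := by
  have h : Nat.land (Nat.shiftRight g n) 1 = g / 2 ^ n % 2 := by
    have h1 : Nat.shiftRight g n = g / 2 ^ n := Nat.shiftRight_eq_div_pow g n
    have h2 : Nat.land (g / 2 ^ n) 1 = g / 2 ^ n % 2 := Nat.and_one_is_mod _
    rw [h1, h2]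
  rw [Nat.testBit_eq_decide_div_mod_eq]
  simp only [tb, h]
  rw [Bool.eq_iff_iff]
  simp

theorem forward_sq {s t : Square} :
    Forward s t ↔ sq s < 56 ∧ ((sq s % 8 ≠ 0 ∧ sq t = sq s + 7) ∨ (sq s % 8 ≠ 7 ∧ sq t = sq s + 9)) := by
  obtain ⟨⟨a, ha⟩, ⟨b, hb⟩⟩ := s
  obtain ⟨⟨c, hc⟩, ⟨d, hd⟩⟩ := t
  simp only [sq, Forward]
  omega

theorem blt_iff (a b : ℕ) : Nat.blt a b = true ↔ a < b := by
  simp [Nat.blt_eq]

theorem ble_iff (a b : ℕ) : Nat.ble a b = true ↔ a ≤ b := by
  simp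

theorem beq_iff (a b : ℕ) : Nat.beq a b = true ↔ a = b := by
  simp

theorem anyUp_sound {s : Square} {P : ℕ → Bool} (h : anyUp (sq s) P = true) :
    ∃ t, Forward s t ∧ P (sq t) = true := by
  simp only [anyUp, Bool.and_eq_true, Bool.or_eq_true, Bool.not_eq_true', blt_iff] at h
  obtain ⟨h1, h2 | h2⟩ := h
  · obtain ⟨h3, h4⟩ := h2
    have h3' : sq s % 8 ≠ 0 := by
      intro h; rw [← beq_iff, h3] at h; cases h
    obtain ⟨t, ht⟩ := exists_sq (n := sq s + 7) (by omega)
    exact ⟨t, forward_sq.2 ⟨h1, Or.inl ⟨h3', ht⟩⟩, by rw [ht]; exact h4⟩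
  · obtain ⟨h3, h4⟩ := h2
    have h3' : sq s % 8 ≠ 7 := by
      intro h; rw [← beq_iff, h3] at h; cases h
    obtain ⟨t, ht⟩ := exists_sq (n := sq s + 9) (by
      have := sq_lt s
      omega)
    exact ⟨t, forward_sq.2 ⟨h1, Or.inr ⟨h3', ht⟩⟩, by rw [ht]; exact h4⟩

theorem allUp_sound {s : Square} {P : ℕ → Bool} (h : allUp (sq s) P = true) {t : Square}
    (ht : Forward s t) : P (sq t) = true := by
  rw [forward_sq] at ht
  simp only [allUp, Bool.and_eq_true, Bool.or_eq_true, beq_iff, ble_iff] at h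
  rcases h with h | ⟨h1, h2⟩
  · omega
  · rcases ht with ⟨h3, ⟨h4, h5⟩ | ⟨h4, h5⟩⟩
    · rw [h5]; exact h1.resolve_left h4
    · rw [h5]; exact h2.resolve_left h4

theorem anyNbr_sound {s : Square} {P : ℕ → Bool} (h : anyNbr (sq s) P = true) :
    ∃ t, (Forward s t ∨ Forward t s) ∧ P (sq t) = true := by
  simp only [anyNbr, Bool.or_eq_true] at h
  rcases h with h | h
  · simp only [Bool.and_eq_true, Bool.or_eq_true, Bool.not_eq_true', ble_iff] at h
    obtain ⟨h1, h2 | h2⟩ := h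
    · obtain ⟨h3, h4⟩ := h2
      have h3' : sq s % 8 ≠ 0 := by
        intro h; rw [← beq_iff, h3] at h; cases h
      have h64 := sq_lt s
      obtain ⟨t, ht⟩ := exists_sq (n := sq s - 9) (by omega)
      exact ⟨t, Or.inr (forward_sq.2 ⟨by omega, Or.inr ⟨by omega, by omega⟩⟩), by rw [ht]; exact h4⟩
    · obtain ⟨h3, h4⟩ := h2
      have h3' : sq s % 8 ≠ 7 := by
        intro h; rw [← beq_iff, h3] at h; cases h
      have h64 := sq_lt s
      obtain ⟨t, ht⟩ := exists_sq (n := sq s - 7) (by omega)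
      exact ⟨t, Or.inr (forward_sq.2 ⟨by omega, Or.inl ⟨by omega, by omega⟩⟩), by rw [ht]; exact h4⟩
  · obtain ⟨t, ht, hP⟩ := anyUp_sound h
    exact ⟨t, Or.inl ht, hP⟩

theorem allNbr_sound {s : Square} {P : ℕ → Bool} (h : allNbr (sq s) P = true) {t : Square}
    (ht : Forward s t ∨ Forward t s) : P (sq t) = true := by
  simp only [allNbr, Bool.and_eq_true] at h
  obtain ⟨h1, h2⟩ := h
  rcases ht with ht | ht
  · exact allUp_sound h2 ht
  · rw [forward_sq] at ht
    simp only [Bool.and_eq_true, Bool.or_eq_true, beq_iff, blt_iff] at h1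
    rcases h1 with h1 | ⟨h3, h4⟩
    · omega
    · rcases ht with ⟨h5, ⟨h6, h7⟩ | ⟨h6, h7⟩⟩
      · have : sq t = sq s - 7 := by omega
        rw [this]; exact h4.resolve_left (by omega)
      · have : sq t = sq s - 9 := by omega
        rw [this]; exact h3.resolve_left (by omega)

theorem allBits_sound {P : ℕ → Bool} {n g : ℕ} (h : allBits P n g = true) {s : ℕ}
    (hs : g.testBit s = true) : P s = true := by
  induction n generalizing g with
  | zero =>
    simp only [allBits, beq_iff] at h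
    rw [h] at hs; simp at hs
  | succ n ih =>
    simp only [allBits, Bool.or_eq_true, Bool.and_eq_true, beq_iff] at h
    rcases h with h | ⟨h1, h2⟩
    · rw [h] at hs; simp at hs
    · by_cases e : s = Nat.log2 g
      · rw [e]; exact h1
      · refine ih h2 ?_
        have : Nat.xor g (2 ^ Nat.log2 g) = g ^^^ 2 ^ Nat.log2 g := rfl
        rw [this, Nat.testBit_xor, hs, Nat.testBit_two_pow_of_ne (fun h => e h.symm)]
        rfl

theorem anyBits_sound {g₀ : ℕ} {P : ℕ → Bool} {n g : ℕ} (h : anyBits g₀ P n g = true) :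
    ∃ s, g₀.testBit s = true ∧ P s = true := by
  induction n generalizing g with
  | zero => simp [anyBits] at h
  | succ n ih =>
    simp only [anyBits, Bool.or_eq_true, Bool.and_eq_true, tb_eq] at h
    rcases h with h | h
    · exact ⟨_, h⟩
    · exact ih h

theorem testBit_upd (g s t n : ℕ) (hs : g.testBit s = true) :
    (upd g s t).testBit n = true ↔ n = t ∨ (n ≠ s ∧ g.testBit n = true) := by
  have : upd g s t = (g ^^^ 2 ^ s) ||| 2 ^ t := rfl
  rw [this, Nat.testBit_or, Nat.testBit_xor]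
  by_cases h1 : n = t
  · subst h1; simp [Nat.testBit_two_pow_self]
  · rw [Nat.testBit_two_pow_of_ne (fun h => h1 h.symm)]
    by_cases h2 : n = s
    · subst h2; simp [Nat.testBit_two_pow_self, hs, h1]
    · rw [Nat.testBit_two_pow_of_ne (fun h => h2 h.symm)]
      simp [h1, h2]

/-- `g` represents the geese of `G` on the ranks `0, ..., k` -/
def Rep (k g : ℕ) (G : Finset Square) : Prop :=
  ∀ s : Square, sq s < zn k → (s ∈ G ↔ g.testBit (sq s) = true)

/-- the geese after the move `s → t` -/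
def moved (G : Finset Square) (s t : Square) : Finset Square := insert t (G.erase s)

theorem mem_moved {G : Finset Square} {s t x : Square} :
    x ∈ moved G s t ↔ x = t ∨ (x ≠ s ∧ x ∈ G) := by
  simp [moved, Finset.mem_insert, Finset.mem_erase]

theorem Rep.upd7 {g : ℕ} {G : Finset Square} (h : Rep 7 g G) {s : Square} (hs : s ∈ G)
    (t : Square) : Rep 7 (upd g (sq s) (sq t)) (moved G s t) := by
  intro x hx
  have hsb : g.testBit (sq s) = true := (h s (by
    have := sq_lt s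
    simpa [zn] using this)).1 hs
  rw [mem_moved, testBit_upd _ _ _ _ hsb, h x hx]
  constructor
  · rintro (rfl | ⟨h1, h2⟩)
    · exact Or.inl rfl
    · exact Or.inr ⟨fun e => h1 (sq_inj e), h2⟩
  · rintro (e | ⟨h1, h2⟩)
    · exact Or.inl (sq_inj e)
    · exact Or.inr ⟨fun e => h1 (by rw [e]), h2⟩

theorem Rep.updk {k g : ℕ} {G : Finset Square} (h : Rep k g G) {s : Square} (hs : s ∈ G)
    (hsk : sq s < zn k) (t : Square) :
    Rep k (upd g (sq s) (sq t) % 2 ^ zn k) (moved G s t) := by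
  intro x hx
  have hsb : g.testBit (sq s) = true := (h s hsk).1 hs
  rw [mem_moved, Nat.testBit_mod_two_pow]
  simp only [hx, decide_true, Bool.true_and]
  rw [testBit_upd _ _ _ _ hsb, h x hx]
  constructor
  · rintro (rfl | ⟨h1, h2⟩)
    · exact Or.inl rfl
    · exact Or.inr ⟨fun e => h1 (sq_inj e), h2⟩
  · rintro (e | ⟨h1, h2⟩)
    · exact Or.inl (sq_inj e)
    · exact Or.inr ⟨fun e => h1 (by rw [e]), h2⟩

theorem forward_lt {s t : Square} (h : Forward s t) : sq s < sq t := by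
  rw [forward_sq] at h; omega

theorem forward_ne {s t : Square} (h : Forward s t) : s ≠ t := by
  rintro rfl
  exact absurd (forward_lt h) (lt_irrefl _)

theorem Rep.same {k g : ℕ} {G : Finset Square} (h : Rep k g G) {s t : Square}
    (hst : Forward s t) (hsk : ¬ sq s < zn k) : Rep k g (moved G s t) := by
  intro x hx
  rw [mem_moved, h x hx]
  have h1 := forward_lt hst
  constructor
  · rintro (rfl | ⟨_, h2⟩)
    · omega
    · exact h2
  · intro h2
    exact Or.inr ⟨by rintro rfl; exact hsk hx, h2⟩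

theorem Rep.down {k g : ℕ} {G : Finset Square} (h : Rep (k + 1) g G) :
    Rep k (g % 2 ^ zn k) G := by
  intro x hx
  rw [Nat.testBit_mod_two_pow]
  simp only [hx, decide_true, Bool.true_and]
  exact h x (by simp only [zn] at hx ⊢; omega)

theorem upd_lt {g : ℕ} (hg : g < 2 ^ 64) (s t : Square) : upd g (sq s) (sq t) < 2 ^ 64 := by
  have : upd g (sq s) (sq t) = (g ^^^ 2 ^ sq s) ||| 2 ^ sq t := rfl
  rw [this]
  exact Nat.or_lt_two_pow (Nat.xor_lt_two_pow hg (Nat.pow_lt_pow_right (by norm_num) (sq_lt s)))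
    (Nat.pow_lt_pow_right (by norm_num) (sq_lt t))

/-! ## Cones -/

/-- a goose on `s` stands on `x` or could (ignoring other pieces) reach `x` later -/
def InCone (s x : Square) : Prop :=
  s.2.val ≤ x.2.val ∧ s.1.val + s.2.val ≤ x.1.val + x.2.val ∧ x.1.val + s.2.val ≤ s.1.val + x.2.val

theorem cone_spec (s x : Square) (h : InCone s x) : (cone (sq x)).testBit (sq s) = true := by
  rw [← tb_eq]
  have key : ∀ a b c d : Fin 8,
      (b.val ≤ d.val ∧ a.val + b.val ≤ c.val + d.val ∧ c.val + b.val ≤ a.val + d.val) →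
      tb (cone (8 * d.val + c.val)) (8 * b.val + a.val) = true := by decide +kernel
  exact key s.1 s.2 x.1 x.2 h

theorem inCone_self (x : Square) : InCone x x := ⟨le_refl _, le_refl _, le_refl _⟩

theorem inCone_forward {s t x : Square} (h : Forward s t) (hx : InCone t x) : InCone s x := by
  obtain ⟨h1, h2⟩ := h
  obtain ⟨h3, h4, h5⟩ := hx
  simp only [InCone]
  omega

/-- the fox on `f` can oscillate for ever between `f` and a neighbouring square -/
def SafeP (G : Finset Square) (f : Square) : Prop :=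
  (∀ s ∈ G, ¬ InCone s f) ∧ ∃ v, (Forward f v ∨ Forward v f) ∧ ∀ s ∈ G, ¬ InCone s v

theorem SafeP.pass {G : Finset Square} {f : Square} (h : SafeP G f) :
    ∃ t, (Forward f t ∨ Forward t f) ∧ t ∉ G ∧ SafeP G t := by
  obtain ⟨h1, v, hv, h2⟩ := h
  exact ⟨v, hv, fun hvG => h2 v hvG (inCone_self v), h2, f, hv.symm, h1⟩

theorem SafeP.moved {G : Finset Square} {f s t : Square} (h : SafeP G f) (hs : s ∈ G)
    (hst : Forward s t) : SafeP (moved G s t) f := by
  obtain ⟨h1, v, hv, h2⟩ := h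
  refine ⟨fun x hx hc => ?_, v, hv, fun x hx hc => ?_⟩
  · rcases mem_moved.1 hx with rfl | ⟨_, hx'⟩
    · exact h1 s hs (inCone_forward hst hc)
    · exact h1 x hx' hc
  · rcases mem_moved.1 hx with rfl | ⟨_, hx'⟩
    · exact h2 s hs (inCone_forward hst hc)
    · exact h2 x hx' hc

theorem cone_free {k g : ℕ} {G : Finset Square} (hG : Rep k g G) {x : Square} (hx : sq x < zn k)
    (h : Nat.beq (Nat.land g (cone (sq x))) 0 = true) : ∀ s ∈ G, ¬ InCone s x := by
  intro s hs hc
  rw [beq_iff] at h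
  have h' : g &&& cone (sq x) = 0 := h
  have h1 : sq s < zn k := by
    obtain ⟨h2, _, _⟩ := hc
    simp only [sq, zn] at hx ⊢
    have h3 := s.1.isLt
    omega
  have h2 : g.testBit (sq s) = true := (hG s h1).1 hs
  have h3 := cone_spec s x hc
  have h4 : (g &&& cone (sq x)).testBit (sq s) = true := by
    rw [Nat.testBit_and, h2, h3]; rfl
  rw [h'] at h4
  simp at h4

theorem safe_sound {k g : ℕ} {G : Finset Square} (hG : Rep k g G) {f : Square} (hf : sq f < zn k)
    (h : safe k g (sq f) = true) : SafeP G f := by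
  simp only [safe, Bool.and_eq_true] at h
  obtain ⟨h1, h2⟩ := h
  refine ⟨cone_free hG hf h1, ?_⟩
  obtain ⟨v, hv, h3⟩ := anyNbr_sound h2
  simp only [Bool.and_eq_true, blt_iff] at h3
  exact ⟨v, hv, cone_free hG h3.1 h3.2⟩

/-! ## The fox strategy -/

theorem key_decode {l g f : ℕ} (hg : g < 2 ^ 64) (hf : f < 64) :
    key l g f % 18446744073709551616 = g ∧
    key l g f / 18446744073709551616 % 64 = f ∧
    key l g f / 18446744073709551616 / 64 = l := by
  have h : (2 : ℕ) ^ 64 = 18446744073709551616 := by norm_num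
  rw [h] at hg
  simp only [key]
  refine ⟨by omega, by omega, by omega⟩

theorem zn_le {k : ℕ} (hk : k ≤ 7) : zn k ≤ 64 := by
  simp only [zn]; omega

/-- the fox is free: positions covered by the zone certificates -/
def FP (G : Finset Square) (f : Square) : Prop :=
  SafeP G f ∨ ∃ k g, k ≤ 7 ∧ Rep k g G ∧ g < 2 ^ zn k ∧ sq f < zn k ∧
    mem (key k g (sq f)) certC = true

theorem down_sound {k : ℕ} : ∀ {g : ℕ} {G : Finset Square}, Rep k g G → k ≤ 7 → g < 2 ^ zn k →
    ∀ {f : Square}, sq f < zn k → down certC k g (sq f) = true → FP G f := by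
  induction k with
  | zero => intro g G _ _ _ f _ h; simp [down] at h
  | succ k ih =>
    intro g G hG hk hg f hf h
    simp only [down, Bool.or_eq_true, Bool.and_eq_true, blt_iff] at h
    rcases h with h | ⟨h1, h2⟩
    · exact Or.inr ⟨k + 1, g, hk, hG, hg, hf, h⟩
    · exact ih hG.down (by omega) (Nat.mod_lt _ (by positivity)) h1 h2

theorem okF_sound {k g : ℕ} {G : Finset Square} (hG : Rep k g G) (hk : k ≤ 7) (hg : g < 2 ^ zn k)
    {f : Square} (hf : sq f < zn k) (h : okF certC k g (sq f) = true) : FP G f := by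
  simp only [okF, Bool.or_eq_true] at h
  rcases h with h | h
  · exact Or.inl (safe_sound hG hf h)
  · exact down_sound hG hk hg hf h

theorem repF_sound {k g : ℕ} {G : Finset Square} (hG : Rep k g G) (hk : k ≤ 7) (hg : g < 2 ^ zn k)
    {f : Square} (h : repF certC k g (sq f) = true) :
    ∃ t, (Forward f t ∨ Forward t f) ∧ t ∉ G ∧ FP G t := by
  obtain ⟨t, ht, h1⟩ := anyNbr_sound h
  simp only [Bool.and_eq_true, blt_iff, Bool.not_eq_true', tb_eq] at h1
  obtain ⟨h2, h3, h4⟩ := h1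
  refine ⟨t, ht, fun htG => ?_, okF_sound hG hk hg h2 h4⟩
  rw [(hG t h2).1 htG] at h3
  cases h3

theorem checkF_of {k g : ℕ} {f : Square} (hk : k ≤ 7) (hg : g < 2 ^ zn k)
    (h : mem (key k g (sq f)) certC = true) : checkF certC k g (sq f) = true := by
  have h1 := allKeys_mem certC_ok h
  have hg' : g < 2 ^ 64 := lt_of_lt_of_le hg (Nat.pow_le_pow_right (by norm_num) (zn_le hk))
  obtain ⟨e1, e2, e3⟩ := key_decode (l := k) hg' (sq_lt f)
  simp only [checkC, e1, e2, e3] at h1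
  have h8 : Nat.blt k 8 = true := by rw [blt_iff]; omega
  rw [h8] at h1
  exact h1

theorem checkM_of {h g : ℕ} {f : Square} (hg : g < 2 ^ 64)
    (hh : mem (key (8 + h) g (sq f)) certC = true) : checkM certC h g (sq f) = true := by
  have h1 := allKeys_mem certC_ok hh
  obtain ⟨e1, e2, e3⟩ := key_decode (l := 8 + h) hg (sq_lt f)
  simp only [checkC, e1, e2, e3] at h1
  have h8 : Nat.blt (8 + h) 8 = false := by
    rw [Bool.eq_false_iff, Ne, blt_iff]; omega
  rw [h8] at h1
  simp only [cond_false, Bool.and_eq_true, Nat.add_sub_cancel_left] at h1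
  exact h1.2

theorem FP.pass {G : Finset Square} {f : Square} (h : FP G f) :
    ∃ t, (Forward f t ∨ Forward t f) ∧ t ∉ G ∧ FP G t := by
  rcases h with h | ⟨k, g, hk, hG, hg, hf, h⟩
  · obtain ⟨t, h1, h2, h3⟩ := h.pass
    exact ⟨t, h1, h2, Or.inl h3⟩
  · have h1 := checkF_of hk hg h
    simp only [checkF, Bool.and_eq_true] at h1
    exact repF_sound hG hk hg h1.2.1

theorem FP.goose {G : Finset Square} {f s t : Square} (h : FP G f) (hs : s ∈ G)
    (hst : Forward s t) (ht : t ∉ G) (htf : t ≠ f) :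
    ∃ u, (Forward f u ∨ Forward u f) ∧ u ∉ moved G s t ∧ FP (moved G s t) u := by
  rcases h with h | ⟨k, g, hk, hG, hg, hf, h⟩
  · obtain ⟨u, h1, h2, h3⟩ := (h.moved hs hst).pass
    exact ⟨u, h1, h2, Or.inl h3⟩
  · have h1 := checkF_of hk hg h
    simp only [checkF, Bool.and_eq_true] at h1
    obtain ⟨_, h2, h3⟩ := h1
    by_cases hsk : sq s < zn k
    · have h4 := allUp_sound (allBits_sound h3 ((hG s hsk).1 hs)) hst
      simp only [Bool.or_eq_true, tb_eq, beq_iff] at h4
      rcases h4 with h4 | h4 | h4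
      · exfalso
        by_cases htk : sq t < zn k
        · exact ht ((hG t htk).2 h4)
        · have : g < 2 ^ sq t := lt_of_lt_of_le hg (Nat.pow_le_pow_right (by norm_num) (by omega))
          rw [Nat.testBit_eq_false_of_lt this] at h4
          cases h4
      · exact absurd (sq_inj h4) htf
      · exact repF_sound (hG.updk hs hsk t) hk (Nat.mod_lt _ (by positivity)) h4
    · exact repF_sound (hG.same hst hsk) hk hg h2

/-- positions of the main part of the fox certificate -/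
def MP (h : Fin 4) (G : Finset Square) (f : Square) : Prop :=
  ∃ g, Rep 7 g G ∧ g < 2 ^ 64 ∧ mem (key (8 + h.val) g (sq f)) certC = true

def FoxS (h : Fin 4) (p : Position) : Prop := MP h p.geese p.fox ∨ FP p.geese p.fox

theorem sq_lt7 (s : Square) : sq s < zn 7 := sq_lt s

theorem okM_sound {g : ℕ} {h : ℕ} (hh : h < 4) {G : Finset Square} (hG : Rep 7 g G)
    (hg : g < 2 ^ 64) {f : Square} (hok : okM certC h g (sq f) = true) :
    FoxS ⟨h, hh⟩ ⟨G, f⟩ := by
  simp only [okM, Bool.or_eq_true] at hok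
  rcases hok with h1 | h1
  · exact Or.inl ⟨g, hG, hg, h1⟩
  · exact Or.inr (okF_sound hG (le_refl _) hg (sq_lt7 f) h1)

theorem repM_sound {g : ℕ} {h : Fin 4} {G : Finset Square} (hG : Rep 7 g G)
    (hg : g < 2 ^ 64) {f : Square} (hr : repM certC h.val g (sq f) = true) :
    (∃ h' : Fin 4, h'.val = h.val + 1 ∧ FoxS h' ⟨G, f⟩) ∨
    (∃ t, (Forward f t ∨ Forward t f) ∧ t ∉ G ∧ FoxS h ⟨G, t⟩) := by
  simp only [repM, Bool.or_eq_true, Bool.and_eq_true, blt_iff] at hr
  rcases hr with ⟨h1, h2⟩ | h1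
  · exact Or.inl ⟨⟨h.val + 1, by omega⟩, rfl, okM_sound _ hG hg h2⟩
  · obtain ⟨t, ht, h2⟩ := anyNbr_sound h1
    simp only [Bool.and_eq_true, Bool.not_eq_true', tb_eq] at h2
    obtain ⟨h3, h4⟩ := h2
    refine Or.inr ⟨t, ht, fun htG => ?_, okM_sound h.isLt hG hg h4⟩
    rw [(hG t (sq_lt7 t)).1 htG] at h3
    cases h3

theorem surv_V_FG : Game.Surv V FoxAndGeese FoxS where
  start := by
    refine Or.inl ⟨85, ?_, by norm_num, startC⟩
    have key : ∀ a b : Fin 8, ((a, b) ∈ ({(0, 0), (2, 0), (4, 0), (6, 0)} : Finset Square)) ↔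
        tb 85 (8 * b.val + a.val) = true := by decide +kernel
    intro s _
    rw [← tb_eq]
    exact key s.1 s.2
  right := by
    rintro h ⟨G, f⟩ hS h' ⟨e1, e2⟩
    have e1' : h = (0 : Fin 4) := e1
    have e2' : h' = (0 : Fin 4) := e2
    subst e1'; subst e2'
    rcases hS with ⟨g, hG, hg, hm⟩ | hF
    · have h1 := checkM_of (h := 0) hg hm
      simp only [checkM, Bool.and_eq_true, Bool.or_eq_true, blt_iff, lt_irrefl, false_or] at h1
      rcases repM_sound (h := 0) hG hg h1.1 with ⟨h', e, hS⟩ | ⟨t, ht, htG, hS⟩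
      · exact Or.inl ⟨h', e, hS⟩
      · exact Or.inr ⟨⟨G, t⟩, ⟨t, ht, htG, rfl⟩, hS⟩
    · obtain ⟨t, ht, htG, hF'⟩ := hF.pass
      exact Or.inr ⟨⟨G, t⟩, ⟨t, ht, htG, rfl⟩, Or.inr hF'⟩
  left := by
    rintro h ⟨G, f⟩ hS p' ⟨s, hs, t, hst, ht, htf, rfl⟩
    have hs' : s ∈ G := hs
    have ht' : t ∉ G := ht
    have htf' : t ≠ f := htf
    rcases hS with ⟨g, hG, hg, hm⟩ | hF
    · have h1 := checkM_of (h := h.val) hg hm
      simp only [checkM, Bool.and_eq_true] at h1
      have h4 := allUp_sound (allBits_sound h1.2 ((hG s (sq_lt7 s)).1 hs')) hst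
      simp only [Bool.or_eq_true, tb_eq, beq_iff] at h4
      rcases h4 with h4 | h4 | h4
      · exact absurd ((hG t (sq_lt7 t)).2 h4) ht'
      · exact absurd (sq_inj h4) htf'
      · rcases repM_sound (h := h) (hG.upd7 hs' t) (upd_lt hg s t) h4 with
          ⟨h', e, hS⟩ | ⟨u, hu, huG, hS⟩
        · exact Or.inl ⟨h', e, hS⟩
        · exact Or.inr ⟨⟨moved G s t, u⟩, ⟨u, hu, huG, rfl⟩, hS⟩
    · obtain ⟨u, hu, huG, hF'⟩ := FP.goose hF hs' hst ht' htf'
      exact Or.inr ⟨⟨moved G s t, u⟩, ⟨u, hu, huG, rfl⟩, Or.inr hF'⟩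

/-! ## The geese strategy -/

def GeeseS (p : Position) (h : Fin 4) : Prop :=
  ∃ g, Rep 7 g p.geese ∧ g < 2 ^ 64 ∧ mem (key h.val g (sq p.fox)) certB = true

theorem anyGoose_sound {g h : ℕ} (hh : h < 4) {G : Finset Square} (hG : Rep 7 g G)
    (hg : g < 2 ^ 64) {f : Square} (ha : anyGoose certB h g (sq f) = true) :
    ∃ p'', FoxAndGeese.left ⟨G, f⟩ p'' ∧ GeeseS p'' ⟨h, hh⟩ := by
  obtain ⟨n, hn, h1⟩ := anyBits_sound ha
  have hn64 : n < 64 := by
    by_contra hc
    have : g < 2 ^ n := lt_of_lt_of_le hg (Nat.pow_le_pow_right (by norm_num) (by omega))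
    rw [Nat.testBit_eq_false_of_lt this] at hn
    cases hn
  obtain ⟨s, rfl⟩ := exists_sq hn64
  obtain ⟨t, hst, h2⟩ := anyUp_sound h1
  simp only [Bool.and_eq_true, Bool.not_eq_true', tb_eq] at h2
  obtain ⟨h3, h4, h5⟩ := h2
  have hs : s ∈ G := (hG s (sq_lt7 s)).2 hn
  have ht : t ∉ G := fun htG => by
    rw [(hG t (sq_lt7 t)).1 htG] at h3
    cases h3
  have htf : t ≠ f := by
    rintro rfl
    rw [Bool.eq_false_iff, Ne, beq_iff] at h4
    exact h4 rfl
  exact ⟨⟨moved G s t, f⟩, ⟨s, hs, t, hst, ht, htf, rfl⟩,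
    upd g (sq s) (sq t), hG.upd7 hs t, upd_lt hg s t, h5⟩

theorem checkB_of {h g : ℕ} {f : Square} (hg : g < 2 ^ 64)
    (hh : mem (key h g (sq f)) certB = true) : checkB' certB h g (sq f) = true := by
  have h1 := allKeys_mem certB_ok hh
  obtain ⟨e1, e2, e3⟩ := key_decode (l := h) hg (sq_lt f)
  simp only [checkB, e1, e2, e3] at h1
  exact h1

theorem surv_FG_V : Game.Surv FoxAndGeese V GeeseS where
  start := by
    refine ⟨85, ?_, by norm_num, startB⟩
    have key : ∀ a b : Fin 8, ((a, b) ∈ ({(0, 0), (2, 0), (4, 0), (6, 0)} : Finset Square)) ↔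
        tb 85 (8 * b.val + a.val) = true := by decide +kernel
    intro s _
    rw [← tb_eq]
    exact key s.1 s.2
  right := by
    rintro ⟨G, f⟩ h ⟨g, hG, hg, hm⟩ p' ⟨t, htf, htG, rfl⟩
    have htf' : Forward f t ∨ Forward t f := htf
    have htG' : t ∉ G := htG
    have h1 := checkB_of hg hm
    simp only [checkB', Bool.and_eq_true] at h1
    have h2 := allNbr_sound h1.1 htf'
    simp only [Bool.or_eq_true, Bool.and_eq_true, tb_eq, beq_iff] at h2
    rcases h2 with h2 | ⟨h2, h3⟩ | h2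
    · exact absurd ((hG t (sq_lt7 t)).2 h2) htG'
    · have e : h = (0 : Fin 4) := Fin.ext h2
      subst e
      exact Or.inr ⟨(0 : Fin 4), ⟨rfl, rfl⟩, g, hG, hg, h3⟩
    · exact Or.inl (anyGoose_sound h.isLt hG hg h2)
  left := by
    rintro ⟨G, f⟩ h ⟨g, hG, hg, hm⟩ h' hh'
    have e : h'.val = h.val + 1 := hh'
    have h1 := checkB_of hg hm
    simp only [checkB', Bool.and_eq_true, Bool.or_eq_true, ble_iff] at h1
    rcases h1.2 with h2 | h2
    · have h3 : h'.val < 4 := h'.isLt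
      omega
    · have h3 : h.val + 1 < 4 := by
        have h3 : h'.val < 4 := h'.isLt
        omega
      obtain ⟨p'', hp, hS⟩ := anyGoose_sound h3 hG hg h2
      have e' : (⟨h.val + 1, h3⟩ : Fin 4) = h' := Fin.ext e.symm
      rw [e'] at hS
      exact Or.inl ⟨p'', hp, hS⟩

end Pool.Agent.Results.MP_ab3a84_co.FoxAndGeeseValue
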